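import Pool.Agent.H90.STK.Stmts3

/-!
# Module NRI: integrability of the logarithm of the number of near lines
-/

set_option autoImplicit false

namespace Pool.STK

open Finset Real MeasureTheory
open scoped RealInnerProductSpace
open Pool.Agent.H49.Ent Pool.Agent.H32.Dense
open Pool.Agent.H53.Kak (E tube)
open Pool.Agent.H53.Dns (Mx psl slp)

namespace NRI

open Classical in
theorem nr_eq {d : ℕ} {ι : Type} [Fintype ι] (k : Fin (d + 1)) (g : ℤ) (δ : ℝ)
    (c e : ι → E d) (s : ℝ) (i : ι) : nr k g δ c e s i =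
      ∑ j, ({s : ℝ | ∀ l, |pt (uT k g c e) (dT k e) s j l - pt (uT k g c e) (dT k e) s i l| ≤
        4 * δ}.indicator (fun _ => (1 : ℝ)) s) := by
  unfold nr
  rw [Finset.card_filter]
  push_cast
  refine Finset.sum_congr rfl (fun j _ => ?_)
  rw [Set.indicator_apply]
  rfl

theorem meas_set {d : ℕ} {ι : Type} (k : Fin (d + 1)) (g : ℤ) (δ : ℝ)
    (c e : ι → E d) (i j : ι) : MeasurableSet {s : ℝ | ∀ l, |pt (uT k g c e) (dT k e) s j l -
      pt (uT k g c e) (dT k e) s i l| ≤ 4 * δ} := by
  have h1 : {s : ℝ | ∀ l, |pt (uT k g c e) (dT k e) s j l -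
      pt (uT k g c e) (dT k e) s i l| ≤ 4 * δ} = ⋂ l, {s : ℝ | |pt (uT k g c e) (dT k e) s j l -
      pt (uT k g c e) (dT k e) s i l| ≤ 4 * δ} := by
    ext s
    simp
  rw [h1]
  apply MeasurableSet.iInter
  intro l
  apply measurableSet_le _ measurable_const
  unfold pt
  fun_prop

theorem meas {d : ℕ} {ι : Type} [Fintype ι] (k : Fin (d + 1)) (g : ℤ) (δ : ℝ)
    (c e : ι → E d) (i : ι) : Measurable (fun s => nr k g δ c e s i) := by
  have h1 : (fun s => nr k g δ c e s i) = fun s =>
      ∑ j, ({s : ℝ | ∀ l, |pt (uT k g c e) (dT k e) s j l - pt (uT k g c e) (dT k e) s i l| ≤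
        4 * δ}.indicator (fun _ => (1 : ℝ)) s) := by
    funext s
    exact nr_eq k g δ c e s i
  rw [h1]
  apply Finset.measurable_sum
  intro j _
  exact measurable_const.indicator (meas_set k g δ c e i j)

theorem nr_le {d : ℕ} {ι : Type} [Fintype ι] (k : Fin (d + 1)) (g : ℤ) (δ : ℝ)
    (c e : ι → E d) (s : ℝ) (i : ι) : nr k g δ c e s i ≤ Fintype.card ι := by
  unfold nr
  exact_mod_cast Finset.card_le_univ _

theorem log_bound (n : ℕ) (x : ℕ) (h : x ≤ n) : |Real.log x| ≤ Real.log (n + 1) := by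
  rcases Nat.eq_zero_or_pos x with h0 | h0
  · rw [h0]
    simp only [Nat.cast_zero, Real.log_zero, abs_zero]
    apply Real.log_nonneg
    have : (0 : ℝ) ≤ n := Nat.cast_nonneg _
    linarith
  · have h1 : (1 : ℝ) ≤ x := by exact_mod_cast h0
    rw [abs_of_nonneg (Real.log_nonneg h1)]
    apply Real.log_le_log (by linarith)
    have : (x : ℝ) ≤ n := by exact_mod_cast h
    linarith

end NRI

open NRI

theorem nri_thm : NRIStmt := by
  intro d ι _ k g δ c e a b
  have hm : Measurable (fun s => ∑ i, Real.log (nr k g δ c e s i)) := by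
    apply Finset.measurable_sum
    intro i _
    exact (meas k g δ c e i).log
  have hb : ∀ s, ‖∑ i, Real.log (nr k g δ c e s i)‖ ≤
      ∑ _i : ι, Real.log ((Fintype.card ι : ℝ) + 1) := by
    intro s
    refine (norm_sum_le _ _).trans ?_
    refine Finset.sum_le_sum (fun i _ => ?_)
    rw [Real.norm_eq_abs]
    unfold nr
    exact log_bound _ _ (Finset.card_le_univ _)
  rw [intervalIntegrable_iff]
  exact Measure.integrableOn_of_bounded (by rw [Real.volume_uIoc]; exact ENNReal.ofReal_ne_top)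
    hm.aestronglyMeasurable (ae_of_all _ hb)

end Pool.STK
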