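import Pool.Agent.H90.STK.Stmts3

/-!
# Module SHF: near points are in one cell of one of the shifted grids
-/

set_option autoImplicit false

namespace Pool.STK

open Finset Real MeasureTheory
open scoped RealInnerProductSpace
open Pool.Agent.H49.Ent Pool.Agent.H32.Dense

namespace SHF

/-- One coordinate, at scale one. -/
theorem one_coord (z : ℝ) : (∀ w : ℝ, |w - z| ≤ 1 / 4 → ⌊w⌋ = ⌊z⌋) ∨
    (∀ w : ℝ, |w - z| ≤ 1 / 4 → ⌊w + 1 / 2⌋ = ⌊z + 1 / 2⌋) := by
  have h0 := Int.floor_le z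
  have h1 := Int.lt_floor_add_one z
  set n := ⌊z⌋ with hn
  by_cases ha : (n : ℝ) + 1 / 4 ≤ z ∧ z < n + 3 / 4
  · left
    intro w hw
    have hw' := abs_le.1 hw
    rw [Int.floor_eq_iff]
    exact ⟨by linarith, by linarith⟩
  · right
    intro w hw
    have hw' := abs_le.1 hw
    by_cases hb : z < n + 1 / 4
    · have e1 : ⌊z + 1 / 2⌋ = n := by
        rw [Int.floor_eq_iff]
        exact ⟨by linarith, by linarith⟩
      rw [e1, Int.floor_eq_iff]
      exact ⟨by linarith, by linarith⟩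
    · have hc : (n : ℝ) + 3 / 4 ≤ z := by
        by_contra h5
        exact ha ⟨by linarith, by linarith⟩
      have e1 : ⌊z + 1 / 2⌋ = n + 1 := by
        rw [Int.floor_eq_iff]
        push_cast
        exact ⟨by linarith, by linarith⟩
      rw [e1, Int.floor_eq_iff]
      push_cast
      exact ⟨by linarith, by linarith⟩

/-- One coordinate. -/
theorem one_coord' (J : ℕ) (x r : ℝ) (hr : 4 * r ≤ ((2 : ℝ) ^ J)⁻¹) : ∃ b : Bool, ∀ y : ℝ,
    |y - x| ≤ r → ⌊2 ^ J * (y + (if b then ((2 : ℝ) ^ J)⁻¹ / 2 else 0))⌋ =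
      ⌊2 ^ J * (x + (if b then ((2 : ℝ) ^ J)⁻¹ / 2 else 0))⌋ := by
  have hJ : (0 : ℝ) < 2 ^ J := by positivity
  have hr' : 2 ^ J * r ≤ 1 / 4 := by
    have h1 := mul_le_mul_of_nonneg_left hr hJ.le
    rw [mul_inv_cancel₀ hJ.ne'] at h1
    linarith
  have hd : ∀ y : ℝ, |y - x| ≤ r → |2 ^ J * y - 2 ^ J * x| ≤ 1 / 4 := by
    intro y hy
    rw [← mul_sub, abs_mul, abs_of_pos hJ]
    exact (mul_le_mul_of_nonneg_left hy hJ.le).trans hr'
  have hs : ∀ y : ℝ, 2 ^ J * (y + ((2 : ℝ) ^ J)⁻¹ / 2) = 2 ^ J * y + 1 / 2 := by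
    intro y
    field_simp
  rcases one_coord (2 ^ J * x) with h | h
  · refine ⟨false, fun y hy => ?_⟩
    simp only [Bool.false_eq_true, if_false, add_zero]
    exact h _ (hd y hy)
  · refine ⟨true, fun y hy => ?_⟩
    simp only [if_true]
    rw [hs, hs]
    exact h _ (hd y hy)

end SHF

open SHF

open Classical in
theorem shf_thm : SHFStmt := by
  intro m J κ _ x r hr0 hr
  have hex : ∀ i : κ, ∃ b : Fin m → Bool, ∀ j : κ, (∀ l, |x j l - x i l| ≤ r) →
      fl J (sft x (sv J b) j) = fl J (sft x (sv J b) i) := by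
    intro i
    have h1 : ∀ l : Fin m, ∃ b : Bool, ∀ y : ℝ,
        |y - x i l| ≤ r → ⌊2 ^ J * (y + (if b then ((2 : ℝ) ^ J)⁻¹ / 2 else 0))⌋ =
          ⌊2 ^ J * (x i l + (if b then ((2 : ℝ) ^ J)⁻¹ / 2 else 0))⌋ :=
      fun l => one_coord' J (x i l) r hr
    choose b hb using h1
    refine ⟨b, fun j hj => ?_⟩
    funext l
    exact hb l (x j l) (hj l)
  choose b hb using hex
  have hpos : ∀ (c : Fin m → Bool) (i : κ), 0 ≤ Real.log ((univ.filter fun j =>
        fl J (sft x (sv J c) j) = fl J (sft x (sv J c) i)).card) := by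
    intro c i
    apply Real.log_nonneg
    have h1 : 1 ≤ (univ.filter fun j =>
        fl J (sft x (sv J c) j) = fl J (sft x (sv J c) i)).card := by
      rw [Nat.one_le_iff_ne_zero, ← Nat.pos_iff_ne_zero, Finset.card_pos]
      exact ⟨i, by simp⟩
    exact_mod_cast h1
  rw [Finset.sum_comm]
  refine Finset.sum_le_sum (fun i _ => ?_)
  have h2 : Real.log ((univ.filter fun j => ∀ l, |x j l - x i l| ≤ r).card) ≤
      Real.log ((univ.filter fun j =>
        fl J (sft x (sv J (b i)) j) = fl J (sft x (sv J (b i)) i)).card) := by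
    have h3 : 1 ≤ (univ.filter fun j => ∀ l, |x j l - x i l| ≤ r).card := by
      rw [Nat.one_le_iff_ne_zero, ← Nat.pos_iff_ne_zero, Finset.card_pos]
      exact ⟨i, by simpa using fun _ : Fin m => hr0⟩
    apply Real.log_le_log
    · exact_mod_cast h3
    · have h4 : (univ.filter fun j => ∀ l, |x j l - x i l| ≤ r) ⊆ (univ.filter fun j =>
          fl J (sft x (sv J (b i)) j) = fl J (sft x (sv J (b i)) i)) := by
        intro j hj
        rw [Finset.mem_filter] at hj ⊢
        exact ⟨hj.1, hb i j hj.2⟩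
      exact_mod_cast Finset.card_le_card h4
  refine h2.trans ?_
  exact Finset.single_le_sum (f := fun c : Fin m → Bool => Real.log ((univ.filter fun j =>
        fl J (sft x (sv J c) j) = fl J (sft x (sv J c) i)).card)) (fun c _ => hpos c i)
    (Finset.mem_univ (b i))

end Pool.STK
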